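import Pool.Agent.Helper98.DISC.GoalsC

/-! # Project DISC (MP_105b7b_pr), packet BAL -/

open MeasureTheory Set Filter Topology

noncomputable section

namespace Pool.Agent.Helper26.DISC

open Pool.Agent.Helper98.DISC

theorem bal : S_BAL := by
  intro a b φ hφ hab
  have hs : 0 < Real.sin φ := Real.sin_pos_of_mem_Ioo hφ
  have hs' : Real.sin φ ≠ 0 := hs.ne'
  set c : ℂ := ⟨(a.re + b.re) / 2 + Real.cos φ / (2 * Real.sin φ) * (a.im - b.im),
    (a.im + b.im) / 2 - Real.cos φ / (2 * Real.sin φ) * (a.re - b.re)⟩ with hc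
  have hcr : c.re = (a.re + b.re) / 2 + Real.cos φ / (2 * Real.sin φ) * (a.im - b.im) := rfl
  have hci : c.im = (a.im + b.im) / 2 - Real.cos φ / (2 * Real.sin φ) * (a.re - b.re) := rfl
  have hsq : ‖b - c‖ ^ 2 = ‖a - c‖ ^ 2 := by
    rw [Complex.sq_norm, Complex.sq_norm, Complex.normSq_apply, Complex.normSq_apply]
    simp only [Complex.sub_re, Complex.sub_im, hcr, hci]
    field_simp
    ring
  have heq : ‖b - c‖ = ‖a - c‖ := by
    rw [← Real.sqrt_sq (norm_nonneg (b - c)), hsq, Real.sqrt_sq (norm_nonneg _)]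
  refine ⟨c, ‖a - c‖, Real.sin φ, ?_, hs, rfl, heq, ?_⟩
  · rcases (norm_nonneg (a - c)).eq_or_lt with h | h
    · exfalso
      apply hab
      have h1 : a - c = 0 := norm_eq_zero.mp h.symm
      have h2 : b - c = 0 := norm_eq_zero.mp (heq.trans h.symm)
      rw [sub_eq_zero] at h1 h2
      rw [h1, h2]
    · exact h
  · intro z
    have he : Complex.exp (-(φ * Complex.I)) = ⟨Real.cos φ, -Real.sin φ⟩ := by
      apply Complex.ext
      · rw [← neg_mul, Complex.exp_re]
        simp
      · rw [← neg_mul, Complex.exp_im]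
        simp
    rw [dq, he, Complex.sq_norm, Complex.sq_norm, Complex.normSq_apply, Complex.normSq_apply]
    simp only [Complex.sub_re, Complex.sub_im, Complex.mul_re, Complex.mul_im, Complex.conj_re,
      Complex.conj_im, hcr, hci]
    field_simp
    ring

end Pool.Agent.Helper26.DISC
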